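import Mathlib

/-!
# MP_007c2d_nt: infinitely many 0-Pisano-Legendre primes

For all integers `a`, `b` such that `|b² - ab - a²|` is not a perfect square (for instance for the Lucas
numbers, `a = 2`, `b = 1`), there are infinitely many odd primes which are 0-PL primes for `(a, b)`.

Proof.  Let `N = b² - ab - a²`.  By Dirichlet's theorem and quadratic reciprocity there are infinitely
many primes `p ≡ 5` modulo `8`, `p ≡ 2` modulo `5` with `(N / p) = -1`.  Let `α` be a root of
`x² - x - 1` in an algebraic closure of `𝔽_p`; it is not in `𝔽_p`, so `α^p = 1 - α` and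
`α^{p+1} = -1`.  Let `h = (p+1)/2`; so `α^h = c` with `c² = -1`, `c ∈ 𝔽_p`, and `F_{n+h} = c F_n` modulo
`p` for all `n`.  As `p ≡ 5` modulo `8`, `c` is not a square, so in every period there are as many
squares as non-squares.  Finally `F_{n+1}² - F_{n+1} F_n - F_n² = ± N` shows that no `F_n` is divisible
by `p`.
-/

set_option autoImplicit false

open Finset

namespace Pool.Agent.Results.MP_007c2d_nt.NonSquareNorm

/-- The sequence `F_0 = a`, `F_1 = b`, `F_n = F_{n-1} + F_{n-2}`. -/
def seq (a b : ℤ) : ℕ → ℤ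
  | 0 => a
  | 1 => b
  | n + 2 => seq a b (n + 1) + seq a b n

/-- The `(a, b)`-Pisano period: the least `t > 0` with `F_{n+t} ≡ F_n` modulo `p` for all `n ≥ 0`. -/
noncomputable def pisano (p : ℕ) (a b : ℤ) : ℕ :=
  sInf {t : ℕ | 0 < t ∧ ∀ n : ℕ, (p : ℤ) ∣ seq a b (n + t) - seq a b n}

/-- The number of indices `n` with `0 ≤ n < π_p(a, b)` and `(F_n / p) = i`. -/
noncomputable def count (p : ℕ) [Fact p.Prime] (a b i : ℤ) : ℕ :=
  {n ∈ range (pisano p a b) | legendreSym p (seq a b n) = i}.card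

/-- The set of the odd `k`-PL primes for `(a, b)`. -/
def PL (a b k : ℤ) : Set ℕ :=
  {p : ℕ | p ≠ 2 ∧ ∃ _ : Fact p.Prime,
    (count p a b 1 : ℤ) - count p a b (-1) - count p a b 0 = k}

section Aux

/-- The sequence over a field. -/
theorem shift {K : Type*} [Field K] (α β c : K) (h : ℕ) (hαβ : α ≠ β) (hα : α ^ 2 = α + 1)
    (hβ : β ^ 2 = β + 1) (h1 : α ^ h = c) (h2 : β ^ h = c) (f : ℕ → K)
    (hf : ∀ n, f (n + 2) = f (n + 1) + f n) (n : ℕ) : f (n + h) = c * f n := by
  have key : ∀ n, (α - β) * f n = (f 1 - β * f 0) * α ^ n - (f 1 - α * f 0) * β ^ n := by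
    intro n
    induction n using Nat.twoStepInduction with
    | zero => ring
    | one => ring
    | more n ih1 ih2 =>
      rw [hf, mul_add, ih1, ih2, pow_add α n 2, pow_add β n 2, hα, hβ]
      ring
  have h3 : α - β ≠ 0 := sub_ne_zero.2 hαβ
  apply mul_left_cancel₀ h3
  rw [key, mul_left_comm, key, pow_add, pow_add, h1, h2]
  ring

/-- The local statement. -/
theorem exists_shift (p : ℕ) [hp : Fact p.Prime] (h8 : p % 8 = 5) (h5 : ¬ IsSquare (5 : ZMod p)) :
    ∃ (h : ℕ) (c : ZMod p), c ^ 2 = -1 ∧ ∀ f : ℕ → ZMod p, (∀ n, f (n + 2) = f (n + 1) + f n) →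
      ∀ n, f (n + h) = c * f n := by
  obtain ⟨i, hi⟩ : IsSquare (-1 : ZMod p) := by
    rw [ZMod.exists_sq_eq_neg_one_iff]
    omega
  let K := AlgebraicClosure (ZMod p)
  have hchar : CharP K p := inferInstance
  set φ : ZMod p →+* K := algebraMap (ZMod p) K with hφ
  have hinj : Function.Injective φ := φ.injective
  obtain ⟨δ, hδ⟩ : ∃ δ : K, δ ^ 2 = 5 := by
    obtain ⟨z, hz⟩ := IsAlgClosed.exists_pow_nat_eq (5 : K) (n := 2) (by norm_num)
    exact ⟨z, hz⟩
  have hp2 : (2 : ZMod p) ≠ 0 := by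
    have h3 : ((2 : ℕ) : ZMod p) ≠ 0 := by
      rw [Ne, ZMod.natCast_eq_zero_iff]
      intro h4
      have := (Nat.prime_dvd_prime_iff_eq hp.out Nat.prime_two).1 h4
      omega
    exact_mod_cast h3
  have h2 : (2 : K) ≠ 0 := by
    intro h3
    apply hp2
    apply hinj
    rw [map_ofNat, map_zero]
    exact h3
  have h50 : (5 : ZMod p) ≠ 0 := by
    intro h
    apply h5
    rw [h]
    exact IsSquare.zero
  have euler : (5 : ZMod p) ^ (p / 2) = -1 := by
    rcases ZMod.pow_div_two_eq_neg_one_or_one p h50 with h | h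
    · exact absurd ((ZMod.euler_criterion p h50).2 h) h5
    · exact h
  have hδp : δ ^ p = -δ := by
    have h3 : p = 2 * (p / 2) + 1 := by omega
    have h4 : (5 : K) ^ (p / 2) = -1 := by
      have := congrArg φ euler
      rwa [map_pow, map_ofNat, map_neg, map_one] at this
    calc δ ^ p = δ ^ (2 * (p / 2) + 1) := by rw [← h3]
      _ = (δ ^ 2) ^ (p / 2) * δ := by rw [pow_succ, pow_mul]
      _ = -δ := by rw [hδ, h4]; ring
  have hδ0 : δ ≠ 0 := by
    intro h0
    apply h50
    apply hinj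
    rw [map_ofNat, map_zero, ← hδ, h0]
    ring
  obtain ⟨α, hα⟩ : ∃ α : K, 2 * α = 1 + δ := ⟨(1 + δ) / 2, mul_div_cancel₀ _ h2⟩
  obtain ⟨β, hβ⟩ : ∃ β : K, 2 * β = 1 - δ := ⟨(1 - δ) / 2, mul_div_cancel₀ _ h2⟩
  have hαβ : α ≠ β := by
    intro h3
    apply hδ0
    apply mul_left_cancel₀ h2
    linear_combination hβ - hα + 2 * h3
  have h4 : (2 : K) ^ 2 ≠ 0 := pow_ne_zero 2 h2
  have hα2 : α ^ 2 = α + 1 := by
    apply mul_left_cancel₀ h4
    linear_combination (2 * α + 1 + δ) * hα - 2 * hα + hδ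
  have hβ2 : β ^ 2 = β + 1 := by
    apply mul_left_cancel₀ h4
    linear_combination (2 * β + 1 - δ) * hβ - 2 * hβ + hδ
  have hmul : α * β = -1 := by
    apply mul_left_cancel₀ h4
    linear_combination (2 * β) * hα + (1 + δ) * hβ - hδ
  -- the Frobenius
  have hαp : α ^ p = β := by
    have h5 : (2 : K) ^ p = 2 := by
      have := congrArg φ (ZMod.pow_card (2 : ZMod p))
      rwa [map_pow, map_ofNat] at this
    apply mul_left_cancel₀ h2
    calc 2 * α ^ p = (2 * α) ^ p := by rw [mul_pow, h5]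
      _ = 1 + δ ^ p := by rw [hα, add_pow_char, one_pow]
      _ = 2 * β := by rw [hδp, hβ]; ring
  have hh : p + 1 = 2 * ((p + 1) / 2) := by omega
  have hsq : (α ^ ((p + 1) / 2)) ^ 2 = φ i ^ 2 := by
    rw [← pow_mul, mul_comm _ 2, ← hh, pow_succ, hαp, mul_comm, hmul, ← map_pow, pow_two, ← hi,
      map_neg, map_one]
  obtain ⟨c, hc, hc2⟩ : ∃ c : ZMod p, α ^ ((p + 1) / 2) = φ c ∧ c ^ 2 = -1 := by
    rcases sq_eq_sq_iff_eq_or_eq_neg.1 hsq with h | h
    · exact ⟨i, h, by rw [pow_two, ← hi]⟩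
    · exact ⟨-i, by rw [map_neg, h], by rw [neg_sq, pow_two, ← hi]⟩
  have hcβ : β ^ ((p + 1) / 2) = φ c := by
    rw [← hαp, ← pow_mul, mul_comm, pow_mul, hc, ← map_pow, ZMod.pow_card]
  refine ⟨(p + 1) / 2, c, hc2, fun f hf n => ?_⟩
  apply hinj
  rw [map_mul]
  exact shift α β (φ c) _ hαβ hα2 hβ2 hc hcβ (fun n => φ (f n))
    (fun n => by simp only [hf, map_add]) n

/-- The sum over a period. -/
theorem sum_shift (f : ℕ → ℤ) (t : ℕ) (ht : ∀ n, f (n + t) = f n) (h : ℕ) :
    ∑ n ∈ range t, f (n + h) = ∑ n ∈ range t, f n := by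
  induction h with
  | zero => simp
  | succ h ih =>
    have h1 := sum_range_succ (fun n => f (n + h)) t
    have h2 := sum_range_succ' (fun n => f (n + h)) t
    have h3 : f (t + h) = f (0 + h) := by
      rw [add_comm t h, ht, zero_add]
    have h4 : ∑ n ∈ range t, f (n + (h + 1)) = ∑ n ∈ range t, f (n + 1 + h) :=
      sum_congr rfl fun n _ => by congr 1; ring
    rw [h4]
    linarith

theorem norm_seq (a b : ℤ) (n : ℕ) :
    seq a b (n + 1) ^ 2 - seq a b (n + 1) * seq a b n - seq a b n ^ 2 =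
      (-1) ^ n * (b ^ 2 - a * b - a ^ 2) := by
  induction n with
  | zero => simp [seq]; ring
  | succ n ih =>
    have h : seq a b (n + 1 + 1) = seq a b (n + 1) + seq a b n := rfl
    rw [h, pow_succ]
    linear_combination -ih

/-- The local criterion. -/
theorem mem_PL (a b : ℤ) (p : ℕ) [hp : Fact p.Prime] (h8 : p % 8 = 5) (h5 : ¬ IsSquare (5 : ZMod p))
    (hN : ¬ IsSquare ((b ^ 2 - a * b - a ^ 2 : ℤ) : ZMod p)) : p ∈ PL a b 0 := by
  obtain ⟨h, c, hc, hs⟩ := exists_shift p h8 h5
  have hp2 : p ≠ 2 := by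
    intro h
    omega
  refine ⟨hp2, hp, ?_⟩
  -- no zeros
  have hm1 : IsSquare (-1 : ZMod p) := ⟨c, by rw [← pow_two, hc]⟩
  have hz : ∀ n, (seq a b n : ZMod p) ≠ 0 := by
    intro n hn
    apply hN
    have h1 := congrArg (fun z : ℤ => (z : ZMod p)) (norm_seq a b n)
    push_cast at h1
    rw [hn] at h1
    push_cast
    have h2 : ((-1 : ZMod p) ^ n) * ((b : ZMod p) ^ 2 - a * b - a ^ 2) = (seq a b (n + 1)) ^ 2 := by
      rw [← h1]
      ring
    have h3 : ((-1 : ZMod p) ^ n) * ((-1 : ZMod p) ^ n) = 1 := by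
      rw [← pow_add, ← two_mul, pow_mul]
      simp
    have h4 : ((b : ZMod p) ^ 2 - a * b - a ^ 2) = (-1) ^ n * (seq a b (n + 1)) ^ 2 := by
      rw [← h2, ← mul_assoc, h3, one_mul]
    rw [h4]
    exact (hm1.pow n).mul (IsSquare.sq _)
  -- the symbol of `c`
  have hc0 : c ≠ 0 := by
    intro h0
    rw [h0] at hc
    have : (1 : ZMod p) = 0 := by linear_combination hc
    exact one_ne_zero this
  have hcχ : quadraticChar (ZMod p) c = -1 := by
    rw [quadraticChar_neg_one_iff_not_isSquare]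
    intro h1
    rw [ZMod.euler_criterion p hc0] at h1
    have h2 : p / 2 = 2 * (p / 4) := by omega
    rw [h2, pow_mul, hc, Odd.neg_one_pow (by rw [Nat.odd_iff]; omega)] at h1
    have h3 : ((2 : ℕ) : ZMod p) = 0 := by
      push_cast
      linear_combination -h1
    rw [ZMod.natCast_eq_zero_iff] at h3
    have := (Nat.prime_dvd_prime_iff_eq hp.out Nat.prime_two).1 h3
    omega
  set f : ℕ → ℤ := fun n => legendreSym p (seq a b n) with hf
  have hrec : ∀ n, ((seq a b (n + 2) : ℤ) : ZMod p) = seq a b (n + 1) + seq a b n := by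
    intro n
    rw [show seq a b (n + 2) = seq a b (n + 1) + seq a b n from rfl]
    push_cast
    rfl
  have hflip : ∀ n, f (n + h) = -f n := by
    intro n
    rw [hf]
    simp only [legendreSym]
    rw [hs (fun n => ((seq a b n : ℤ) : ZMod p)) hrec n, map_mul, hcχ]
    ring
  have hval : ∀ n, f n = 1 ∨ f n = -1 := by
    intro n
    rw [hf]
    simp only [legendreSym]
    exact quadraticChar_dichotomy (hz n)
  -- the period
  have hper : ∃ t : ℕ, 0 < t ∧ ∀ n : ℕ, (p : ℤ) ∣ seq a b (n + t) - seq a b n := by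
    by_cases h0 : h = 0
    · exfalso
      subst h0
      have h1 := hflip 0
      rcases hval 0 with h2 | h2 <;> rw [add_zero, h2] at h1 <;> norm_num at h1
    · refine ⟨4 * h, by omega, fun n => ?_⟩
      rw [← ZMod.intCast_zmod_eq_zero_iff_dvd]
      push_cast
      have h1 := hs (fun n => ((seq a b n : ℤ) : ZMod p)) hrec
      rw [show n + 4 * h = n + h + h + h + h by ring, h1, h1, h1, h1]
      linear_combination (c ^ 2 - 1) * (seq a b n : ZMod p) * hc
  have hmem : 0 < pisano p a b ∧ ∀ n : ℕ, (p : ℤ) ∣ seq a b (n + pisano p a b) - seq a b n :=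
    Nat.sInf_mem (s := {t : ℕ | 0 < t ∧ ∀ n : ℕ, (p : ℤ) ∣ seq a b (n + t) - seq a b n}) hper
  set t := pisano p a b with ht
  have hpt : ∀ n, f (n + t) = f n := by
    intro n
    rw [hf]
    simp only [legendreSym]
    congr 1
    have := (ZMod.intCast_zmod_eq_zero_iff_dvd _ p).2 (hmem.2 n)
    push_cast at this
    exact sub_eq_zero.1 this
  have hsum : ∑ n ∈ range t, f n = 0 := by
    have h1 := sum_shift f t hpt h
    have h2 : ∑ n ∈ range t, f (n + h) = -∑ n ∈ range t, f n := by
      rw [← sum_neg_distrib]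
      exact sum_congr rfl fun n _ => hflip n
    linarith
  have hcount : (count p a b 1 : ℤ) - count p a b (-1) = ∑ n ∈ range t, f n := by
    have e1 : (count p a b 1 : ℤ) = ∑ n ∈ range t, if f n = 1 then 1 else 0 := by
      rw [count, card_filter]
      push_cast
      rfl
    have e2 : (count p a b (-1) : ℤ) = ∑ n ∈ range t, if f n = -1 then 1 else 0 := by
      rw [count, card_filter]
      push_cast
      rfl
    rw [e1, e2, ← sum_sub_distrib]
    refine sum_congr rfl fun n _ => ?_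
    rcases hval n with h | h <;> rw [h] <;> norm_num
  have hzero : count p a b 0 = 0 := by
    rw [count, card_eq_zero, filter_eq_empty_iff]
    intro n _ h0
    rcases hval n with h | h
    · rw [hf] at h
      simp only at h
      rw [h] at h0
      norm_num at h0
    · rw [hf] at h
      simp only at h
      rw [h] at h0
      norm_num at h0
  rw [hcount, hsum, hzero]
  norm_num

/-- The `2`-adic valuation of the norm form is even: if `m² s` with `s` odd or `s` twice odd. -/
theorem norm_even (k : ℕ) : ∀ a b : ℤ, (a.natAbs + b.natAbs ≤ k) → ∀ m s : ℤ,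
    b ^ 2 - a * b - a ^ 2 = m ^ 2 * (2 * s) → ¬ (2 : ℤ) ∣ s → b ^ 2 - a * b - a ^ 2 = 0 := by
  induction k with
  | zero =>
    intro a b h m s _ _
    have ha : a = 0 := by omega
    have hb : b = 0 := by omega
    simp [ha, hb]
  | succ k ih =>
    intro a b h m s hm hs
    by_contra h0
    have h2 : (2 : ℤ) ∣ b ^ 2 - a * b - a ^ 2 := ⟨m ^ 2 * s, by rw [hm]; ring⟩
    have hab : 2 ∣ a ∧ 2 ∣ b := by
      have h3 := Int.emod_emod_of_dvd
      rcases Int.emod_two_eq_zero_or_one a with ha | ha <;>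
        rcases Int.emod_two_eq_zero_or_one b with hb | hb
      · exact ⟨Int.dvd_of_emod_eq_zero ha, Int.dvd_of_emod_eq_zero hb⟩
      all_goals
        exfalso
        rw [Int.dvd_iff_emod_eq_zero] at h2
        simp [pow_two, Int.sub_emod, Int.mul_emod, ha, hb] at h2
    obtain ⟨⟨a', rfl⟩, ⟨b', rfl⟩⟩ := hab
    have h4 : 2 * (b' ^ 2 - a' * b' - a' ^ 2) = m ^ 2 * s := by nlinarith
    have h5 : (2 : ℤ) ∣ m := by
      have h6 : (2 : ℤ) ∣ m ^ 2 * s := ⟨_, h4.symm⟩
      rcases Int.prime_two.dvd_or_dvd h6 with h | h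
      · exact Int.prime_two.dvd_of_dvd_pow h
      · exact absurd h hs
    obtain ⟨m', rfl⟩ := h5
    have h7 : b' ^ 2 - a' * b' - a' ^ 2 = m' ^ 2 * (2 * s) := by nlinarith
    have hne : ¬ (a' = 0 ∧ b' = 0) := by
      rintro ⟨rfl, rfl⟩
      exact h0 (by ring)
    have h8 := ih a' b' (by omega) m' s h7 hs
    apply h0
    linear_combination 4 * h8

open scoped NumberTheorySymbols in
/-- A residue class with the right symbol. -/
theorem exists_class (s : ℕ) (hs : Squarefree s) (hodd : Odd s) (h1 : s ≠ 1) :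
    ∃ u : ℕ, u % 8 = 5 ∧ u % 5 = 2 ∧ Nat.Coprime u s ∧ J(u | s) = -1 := by
  have hs0 : s ≠ 0 := hs.ne_zero
  by_cases h5 : 5 ∣ s
  · obtain ⟨t, rfl⟩ := h5
    have hco : Nat.Coprime 5 t := Nat.coprime_of_squarefree_mul hs
    have h2 : Nat.Coprime 40 t := by
      have h3 : Nat.Coprime 2 t := by
        rw [Nat.coprime_two_left]
        exact (Nat.odd_mul.1 hodd).2
      have h4 : Nat.Coprime (2 ^ 3 * 5) t := Nat.Coprime.mul_left (h3.pow_left 3) hco
      simpa using h4
    obtain ⟨u, hu1, hu2⟩ := Nat.chineseRemainder h2 37 1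
    have ht0 : t ≠ 0 := by
      rintro rfl
      exact hs0 rfl
    haveI : NeZero t := ⟨ht0⟩
    have hu5 : u % 5 = 2 := by
      have := (Nat.ModEq.of_dvd (show 5 ∣ 40 by norm_num) hu1)
      simpa [Nat.ModEq] using this
    have hJ : J(u | 5 * t) = -1 := by
      rw [jacobiSym.mul_right]
      have e1 : J(u | 5) = J(2 | 5) := jacobiSym.mod_left' (by
        have : ((u : ℤ) % ((5 : ℕ) : ℤ)) = ((u % 5 : ℕ) : ℤ) := by push_cast; rfl
        rw [this, hu5]
        norm_num)
      have e2 : J(u | t) = J(1 | t) := jacobiSym.mod_left' (by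
        have := (Int.natCast_modEq_iff.2 hu2)
        simpa [Int.ModEq] using this)
      have e3 : J(2 | 5) = -1 := by
        rw [jacobiSym.at_two (by decide)]
        decide
      rw [e1, e2, e3, jacobiSym.one_left]
      norm_num
    refine ⟨u, ?_, hu5, ?_, hJ⟩
    · have := (Nat.ModEq.of_dvd (show 8 ∣ 40 by norm_num) hu1)
      simpa [Nat.ModEq] using this
    · by_contra hc
      have := (jacobiSym.eq_zero_iff (a := (u : ℤ)) (b := 5 * t)).2 ⟨by omega, by rw [Int.gcd_natCast_natCast]; exact hc⟩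
      rw [this] at hJ
      norm_num at hJ
  · obtain ⟨q, hq, hqs⟩ := Nat.exists_prime_and_dvd h1
    obtain ⟨t, rfl⟩ := hqs
    haveI := Fact.mk hq
    have hco : Nat.Coprime q t := Nat.coprime_of_squarefree_mul hs
    have ht0 : t ≠ 0 := by
      rintro rfl
      exact hs0 (by simp)
    haveI : NeZero t := ⟨ht0⟩
    haveI : NeZero q := ⟨hq.ne_zero⟩
    have hqodd : Odd q := (Nat.odd_mul.1 hodd).1
    obtain ⟨r, hr⟩ := FiniteField.exists_nonsquare (F := ZMod q) (by
      rw [ZMod.ringChar_zmod_n]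
      rintro rfl
      exact absurd hqodd (by decide))
    obtain ⟨v, hv1, hv2⟩ := Nat.chineseRemainder hco r.val 1
    have h2 : Nat.Coprime 40 (q * t) := by
      have h3 : Nat.Coprime 2 (q * t) := by
        rw [Nat.coprime_two_left]
        exact hodd
      have h4 : Nat.Coprime (2 ^ 3 * 5) (q * t) :=
        Nat.Coprime.mul_left (h3.pow_left 3) ((Nat.Prime.coprime_iff_not_dvd Nat.prime_five).2 h5)
      simpa using h4
    obtain ⟨u, hu1, hu2⟩ := Nat.chineseRemainder h2 37 v
    have hJ : J(u | q * t) = -1 := by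
      rw [jacobiSym.mul_right]
      have e1 : J(u | q) = J(r.val | q) := jacobiSym.mod_left' (by
        have := (Int.natCast_modEq_iff.2 ((hu2.of_mul_right t).trans hv1))
        simpa [Int.ModEq] using this)
      have e2 : J(u | t) = J(1 | t) := jacobiSym.mod_left' (by
        have := (Int.natCast_modEq_iff.2 ((hu2.of_mul_left q).trans hv2))
        simpa [Int.ModEq] using this)
      have e3 : J(r.val | q) = -1 := by
        rw [← jacobiSym.legendreSym.to_jacobiSym, legendreSym.eq_neg_one_iff]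
        simpa using hr
      rw [e1, e2, e3, jacobiSym.one_left]
      norm_num
    refine ⟨u, ?_, ?_, ?_, hJ⟩
    · have := (Nat.ModEq.of_dvd (show 8 ∣ 40 by norm_num) hu1)
      simpa [Nat.ModEq] using this
    · have := (Nat.ModEq.of_dvd (show 5 ∣ 40 by norm_num) hu1)
      simpa [Nat.ModEq] using this
    · by_contra hc
      have := (jacobiSym.eq_zero_iff (a := (u : ℤ)) (b := q * t)).2
        ⟨mul_ne_zero hq.ne_zero ht0, by rw [Int.gcd_natCast_natCast]; exact hc⟩
      rw [this] at hJ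
      norm_num at hJ

open scoped NumberTheorySymbols in
/-- The primes. -/
theorem exists_primes (N : ℤ) (hN : ¬ IsSquare |N|) (hN2 : ∀ m s : ℤ, N = m ^ 2 * (2 * s) → (2 : ℤ) ∣ s)
    (B : ℕ) : ∃ p : ℕ, B < p ∧ ∃ _ : Fact p.Prime, p % 8 = 5 ∧ ¬ IsSquare (5 : ZMod p) ∧
      ¬ IsSquare (N : ZMod p) := by
  obtain ⟨s, m, hms, hsf⟩ := Nat.sq_mul_squarefree N.natAbs
  have hs1 : s ≠ 1 := by
    rintro rfl
    apply hN
    refine ⟨m, ?_⟩
    rw [Int.abs_eq_natAbs, ← hms]
    push_cast
    ring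
  have hm0 : m ≠ 0 := by
    rintro rfl
    apply hN
    rw [Int.abs_eq_natAbs, ← hms]
    simp
  have hodd : Odd s := by
    by_contra h
    rw [Nat.not_odd_iff_even] at h
    obtain ⟨k, rfl⟩ := h.two_dvd
    have hk : (2 : ℤ) ∣ k := by
      rcases Int.natAbs_eq N with h | h
      · refine hN2 m k ?_
        rw [h, ← hms]
        push_cast
        ring
      · have := hN2 m (-k) (by
          rw [h, ← hms]
          push_cast
          ring)
        simpa using this
    have hk' : 2 ∣ k := by exact_mod_cast hk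
    obtain ⟨l, rfl⟩ := hk'
    have h3 := hsf 2 ⟨l, by ring⟩
    rw [Nat.isUnit_iff] at h3
    omega
  obtain ⟨u, hu8, hu5, hus, hJ⟩ := exists_class s hsf hodd hs1
  have hs0 : s ≠ 0 := hsf.ne_zero
  have hco : Nat.Coprime u (40 * s) := by
    have h2 : Nat.Coprime u 2 := by
      rw [Nat.coprime_two_right]
      rw [Nat.odd_iff]
      omega
    have h5 : Nat.Coprime u 5 := by
      rw [Nat.coprime_comm, Nat.Prime.coprime_iff_not_dvd Nat.prime_five]
      omega
    have h3 : Nat.Coprime u (2 ^ 3 * 5) := Nat.Coprime.mul_right (h2.pow_right 3) h5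
    have h4 : Nat.Coprime u 40 := by simpa using h3
    exact Nat.Coprime.mul_right h4 hus
  obtain ⟨p, hpB, hp, hpu⟩ := Nat.forall_exists_prime_gt_and_modEq (max B m) (q := 40 * s) (a := u)
    (by omega) hco
  haveI := Fact.mk hp
  have hp8 : p % 8 = 5 := by
    have := Nat.ModEq.of_dvd (show 8 ∣ 40 * s from ⟨5 * s, by ring⟩) hpu
    rw [Nat.ModEq] at this
    omega
  have hp5 : p % 5 = 2 := by
    have := Nat.ModEq.of_dvd (show 5 ∣ 40 * s from ⟨8 * s, by ring⟩) hpu
    rw [Nat.ModEq] at this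
    omega
  have hJ5 : J(5 | p) = -1 := by
    have h1 : J((5 : ℕ) | p) = J((p : ℕ) | 5) :=
      jacobiSym.quadratic_reciprocity_one_mod_four (by norm_num) (by rw [Nat.odd_iff]; omega)
    have h2 : J((p : ℤ) | 5) = J(2 | 5) := jacobiSym.mod_left' (by
        have : ((p : ℤ) % ((5 : ℕ) : ℤ)) = ((p % 5 : ℕ) : ℤ) := by push_cast; rfl
        rw [this, hp5]
        norm_num)
    have h3 : J(2 | 5) = -1 := by
        rw [jacobiSym.at_two (by decide)]
        decide
    rw [h2, h3] at h1
    exact_mod_cast h1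
  have hJs : J(s | p) = -1 := by
    rw [← jacobiSym.quadratic_reciprocity_one_mod_four (by omega) hodd, ← hJ]
    refine jacobiSym.mod_left' ?_
    have := Int.natCast_modEq_iff.2 (hpu.of_mul_left 40)
    exact this
  refine ⟨p, lt_of_le_of_lt (le_max_left _ _) hpB, ⟨hp⟩, hp8, ?_, ?_⟩
  · have := ZMod.nonsquare_of_jacobiSym_eq_neg_one hJ5
    simpa using this
  · intro hsq
    have h1 := ZMod.nonsquare_of_jacobiSym_eq_neg_one hJs
    apply h1
    have hm1 : IsSquare (-1 : ZMod p) := by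
      rw [ZMod.exists_sq_eq_neg_one_iff]
      omega
    have h2 : IsSquare ((N.natAbs : ℕ) : ZMod p) := by
      rcases Int.natAbs_eq N with h | h
      · have h3 : ((N.natAbs : ℕ) : ZMod p) = (N : ZMod p) := by
          conv_rhs => rw [h]
          simp
        rw [h3]
        exact hsq
      · have h3 : ((N.natAbs : ℕ) : ZMod p) = (-1) * (N : ZMod p) := by
          conv_rhs => rw [h]
          simp
        rw [h3]
        exact hm1.mul hsq
    have hmp : (m : ZMod p) ≠ 0 := by
      rw [Ne, ZMod.natCast_eq_zero_iff]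
      intro h
      have := Nat.le_of_dvd (by omega) h
      have := lt_of_le_of_lt (le_max_right B m) hpB
      omega
    obtain ⟨y, hy⟩ := h2
    refine ⟨y * (m : ZMod p)⁻¹, ?_⟩
    rw [← hms] at hy
    push_cast at hy ⊢
    field_simp
    linear_combination hy

end Aux

/-- **Infinitely many 0-PL primes** for all pairs `(a, b)` such that `|b² - ab - a²|` is not a perfect
square. -/
theorem result (a b : ℤ) (h : ¬ IsSquare |b ^ 2 - a * b - a ^ 2|) : (PL a b 0).Infinite := by
  rw [Set.infinite_iff_exists_gt]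
  intro B
  obtain ⟨p, hB, hp, h8, h5, hN⟩ := exists_primes (b ^ 2 - a * b - a ^ 2) h (by
    intro m s hm
    by_contra hs
    apply h
    rw [norm_even _ a b le_rfl m s hm hs]
    simp) B
  exact ⟨p, mem_PL a b p h8 h5 hN, hB⟩

end Pool.Agent.Results.MP_007c2d_nt.NonSquareNorm
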